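import Pool.Agent.W2helper83.BT.Defs4
import Pool.Agent.W2helper83.BT.North
import Pool.Agent.W2helper6.BT.Sel

/-! Project BT, fourth part, piece NORTHA. -/

set_option autoImplicit false

namespace Pool.Agent.W2helper71.BT4

open NumberField
open Pool.Agent.W2helper83.BT

theorem northa : NORTHA := by
  intro K _ _ e b c he hb
  have he1 : e ≠ 1 := by
    rintro rfl
    norm_num at he
  have hm : 0 < (e - 1).natAbs := Int.natAbs_pos.2 (sub_ne_zero.2 he1)
  obtain ⟨L, fL, nL, aL, hL⟩ := Pool.Agent.W2helper6.BT.roots K {b} (e - 1).natAbs hm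
  obtain ⟨θ, hθ⟩ := hL b (Finset.mem_singleton_self b)
  have hθ0 : θ ≠ 0 := by
    rintro rfl
    rw [zero_pow hm.ne'] at hθ
    exact (map_ne_zero (algebraMap K L)).2 hb hθ.symm
  obtain ⟨β, hβ0, hβ⟩ : ∃ β : L, β ≠ 0 ∧ β ^ (e - 1) = algebraMap K L b := by
    rcases Int.natAbs_eq (e - 1) with h2 | h2
    · refine ⟨θ, hθ0, ?_⟩
      rw [h2, zpow_natCast]
      exact hθ
    · refine ⟨θ⁻¹, inv_ne_zero hθ0, ?_⟩
      rw [h2, zpow_neg, zpow_natCast, inv_pow, inv_inv]
      exact hθ
  have haff : (aff e b 0 c : K → K) = fa e b c := by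
    funext x
    rw [aff, fa, sub_zero]
  have hinj : Function.Injective fun x : K => β * (algebraMap K L x - algebraMap K L 0) := by
    intro x y hxy
    have h1 := mul_left_cancel₀ hβ0 hxy
    exact (algebraMap K L).injective (sub_left_injective h1)
  refine Set.Finite.of_finite_image (f := fun x : K => β * (algebraMap K L x - algebraMap K L 0))
    ((north he (β * (algebraMap K L c - algebraMap K L 0))).subset ?_) hinj.injOn
  rintro _ ⟨x, ⟨m, n, hmn, h⟩, rfl⟩
  refine ⟨m, n, hmn, ?_⟩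
  rw [← haff] at h
  rw [← iter_conj (algebraMap K L) hβ0 hβ, ← iter_conj (algebraMap K L) hβ0 hβ, h]

end Pool.Agent.W2helper71.BT4
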